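import Pool.Agent.H369.RE.Stm

/-! RE4: functions of degree three with prescribed zeros. -/

set_option autoImplicit false

namespace Pool.Agent.H52.RE

open Pool.Agent.H369.TH Pool.Agent.H369.RE

theorem qq_zpow_snd {Γ K : Type} [AddCommGroup Γ] [Field K] (P : Γ) (k : ℤ) :
    ((qq P ^ k : Pt Γ K)).2 = 1 := by
  have h : ((qq P ^ k : Pt Γ K)).2 = ((qq P : Pt Γ K)).2 ^ k := rfl
  rw [h]
  exact one_zpow k

theorem infinite_units (K : Type) [Field K] [CharZero K] : Infinite Kˣ := by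
  have h : Function.Injective (fun n : ℕ => Units.mk0 ((n : K) + 1) (Nat.cast_add_one_ne_zero n)) := by
    intro m n h
    have h1 := congrArg (fun u : Kˣ => (u : K)) h
    simp only [Units.val_mk0] at h1
    have h2 : (m : K) = (n : K) := add_right_cancel h1
    exact Nat.cast_injective h2
  exact Infinite.of_injective _ h

theorem coeff_zero_mul' {R : Type} [CommRing R] (p q : PowerSeries R) :
    PowerSeries.coeff 0 (p * q) = PowerSeries.coeff 0 p * PowerSeries.coeff 0 q := by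
  rw [PowerSeries.coeff_zero_eq_constantCoeff_apply, PowerSeries.coeff_zero_eq_constantCoeff_apply,
    PowerSeries.coeff_zero_eq_constantCoeff_apply, map_mul]

theorem fun4 (h1 : S_rules) (h3 : S_Th) (h4 : S_theta) : S_fun := by
  clear h1
  intro Γ K _ _ _ _ _ P hP o a s hs
  classical
  have := infinite_units K
  let bad : Finset Kˣ := (insert a s).image (fun c : Pt Γ K => c.2) ∪
    (insert a s).image (fun c : Pt Γ K => o.2 ^ 3 * a.2⁻¹ * c.2⁻¹)
  obtain ⟨ρ, hρ⟩ := Infinite.exists_notMem_finset bad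
  have hb1 : ∀ c ∈ insert a s, c.2 ≠ ρ := by
    intro c hc h
    apply hρ
    rw [Finset.mem_union]
    left
    rw [← h]
    exact Finset.mem_image_of_mem (fun c : Pt Γ K => c.2) hc
  have hb2 : ∀ c ∈ insert a s, o.2 ^ 3 * a.2⁻¹ * c.2⁻¹ ≠ ρ := by
    intro c hc h
    apply hρ
    rw [Finset.mem_union]
    right
    rw [← h]
    exact Finset.mem_image_of_mem (fun c : Pt Γ K => o.2 ^ 3 * a.2⁻¹ * c.2⁻¹) hc
  let b0 : Pt Γ K := (1, ρ)
  let d0 : Pt Γ K := o ^ 3 * a⁻¹ * b0⁻¹
  have hb0 : ∀ c ∈ insert a s, ∀ k : ℤ, c ≠ b0 * qq P ^ k := by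
    intro c hc k h
    apply hb1 c hc
    have h2 : c.2 = b0.2 * ((qq P ^ k : Pt Γ K)).2 := by
      rw [h]; rfl
    rw [h2, qq_zpow_snd, mul_one]
  have hd0 : ∀ c ∈ insert a s, ∀ k : ℤ, c ≠ d0 * qq P ^ k := by
    intro c hc k h
    apply hb2 c hc
    have h2 : c.2 = (o.2 ^ 3 * a.2⁻¹ * ρ⁻¹) * ((qq P ^ k : Pt Γ K)).2 := by
      rw [h]; rfl
    rw [h2, qq_zpow_snd, mul_one, mul_inv_rev, inv_inv]
    generalize o.2 ^ 3 * a.2⁻¹ = x
    rw [mul_comm ρ, mul_inv_cancel_left]
  obtain ⟨-, -, -, hmul, -⟩ := h3 Γ K P hP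
  obtain ⟨ha1, -, ha3, ha4, ha5⟩ := h4 Γ K P hP a
  obtain ⟨hb1', -, -, -, hb5⟩ := h4 Γ K P hP b0
  obtain ⟨hd1', -, -, -, hd5⟩ := h4 Γ K P hP d0
  have hmem := hmul _ _ _ _ _ _ (hmul _ _ _ _ _ _ ha1 hb1') hd1'
  have he : (1 + 1 + 1 : ℤ) = 3 := by norm_num
  have hc : ng a * ng b0 * ng d0 = ng o ^ 3 := by
    have h5 : d0 = o ^ 3 * a⁻¹ * b0⁻¹ := rfl
    rw [h5]
    unfold ng
    rw [mul_pow]
    have h6 : ∀ x y z w : Pt Γ K, x * y * (x * z) * (x * (w * y⁻¹ * z⁻¹)) = x ^ 3 * w := by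
      intro x y z w
      have e1 : x * y * (x * z) * (x * (w * y⁻¹ * z⁻¹)) = x * x * x * w * (y * y⁻¹) * (z * z⁻¹) := by
        simp only [mul_assoc, mul_comm, mul_left_comm]
      rw [e1, mul_inv_cancel, mul_inv_cancel, mul_one, mul_one, pow_succ, pow_two]
    exact h6 _ _ _ _
  rw [he, hc] at hmem
  refine ⟨_, hmem, ?_, ?_, ?_⟩
  · rw [(T a).map_mul, (T a).map_mul, coeff_zero_mul', coeff_zero_mul', ha3,
      zero_mul, zero_mul]
  · have hbb := hb5 a (hb0 a (Finset.mem_insert_self _ _))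
    have hdd := hd5 a (hd0 a (Finset.mem_insert_self _ _))
    have key : ∀ p q r : PowerSeries (HG Γ K), PowerSeries.coeff 0 p = 0 →
        PowerSeries.coeff 1 (p * q * r) = PowerSeries.coeff 1 p * PowerSeries.coeff 0 q * PowerSeries.coeff 0 r := by
      intro p q r hp
      rw [PowerSeries.coeff_mul, Finset.Nat.antidiagonal_succ]
      simp only [Finset.sum_cons, Finset.Nat.antidiagonal_zero, Finset.map_singleton,
        Finset.sum_singleton, Function.Embedding.prodMap, Function.Embedding.coeFn_mk, Prod.map]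
      have e0 : PowerSeries.coeff 0 (p * q) = 0 := by
        rw [coeff_zero_mul', hp, zero_mul]
      rw [e0, zero_mul, zero_add]
      have e1 : PowerSeries.coeff 1 (p * q) = PowerSeries.coeff 1 p * PowerSeries.coeff 0 q := by
        rw [PowerSeries.coeff_mul, Finset.Nat.antidiagonal_succ]
        simp only [Finset.sum_cons, Finset.Nat.antidiagonal_zero, Finset.map_singleton,
          Finset.sum_singleton, Function.Embedding.prodMap, Function.Embedding.coeFn_mk, Prod.map]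
        rw [hp, zero_mul, zero_add]
        rfl
      rw [← e1]
      rfl
    rw [(T a).map_mul, (T a).map_mul, key _ _ _ ha3]
    exact mul_ne_zero (mul_ne_zero ha4 hbb) hdd
  · intro b hb
    rw [(T b).map_mul, (T b).map_mul, coeff_zero_mul', coeff_zero_mul']
    exact mul_ne_zero (mul_ne_zero (ha5 b (hs b hb)) (hb5 b (hb0 b (Finset.mem_insert_of_mem hb))))
      (hd5 b (hd0 b (Finset.mem_insert_of_mem hb)))

end Pool.Agent.H52.RE
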